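import Pool.Agent.helper41.CL.SpecB

set_option autoImplicit false

/-!
Row XK: the covers after adding a new component `{a, b}`.
-/

namespace Pool.Agent.helper41.CL

open Finset

theorem XK (h1 : SP_stmt) : XK_stmt := by
  intro α _ V E a b hab ha hb hG
  have hinV : ∀ e ∈ E, ∀ x ∈ e, x ∈ V := fun e he x hx => (hG e he).1 hx
  have haW : a ∉ insert b V := by
    rw [Finset.mem_insert]
    rintro (h | h)
    · exact hab h
    · exact ha h
  have er1 : (insert a (insert b V)).erase a = insert b V := Finset.erase_insert haW
  have er2 : (insert b V).erase b = V := Finset.erase_insert hb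
  have fa : (insert ({a, b} : Finset α) E).filter (fun e => a ∉ e) = E := by
    ext e
    rw [Finset.mem_filter, Finset.mem_insert]
    constructor
    · rintro ⟨h | h, h2⟩
      · exact absurd (by rw [h]; simp) h2
      · exact h
    · intro h
      exact ⟨Or.inr h, fun h2 => ha (hinV e h a h2)⟩
  have fb : (insert ({a, b} : Finset α) E).filter (fun e => b ∉ e) = E := by
    ext e
    rw [Finset.mem_filter, Finset.mem_insert]
    constructor
    · rintro ⟨h | h, h2⟩
      · exact absurd (by rw [h]; simp) h2
      · exact h
    · intro h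
      exact ⟨Or.inr h, fun h2 => hb (hinV e h b h2)⟩
  have fb' : E.filter (fun e => b ∉ e) = E := by
    rw [Finset.filter_eq_self]
    exact fun e h h2 => hb (hinV e h b h2)
  have e0 : ∀ c, #(cov V (insert ({a, b} : Finset α) E) c) = 0 := by
    intro c
    rw [Finset.card_eq_zero, Finset.eq_empty_iff_forall_notMem]
    intro C hC
    unfold cov at hC
    rw [Finset.mem_filter, Finset.mem_powersetCard] at hC
    obtain ⟨x, hx, hxC⟩ := hC.2 {a, b} (Finset.mem_insert_self _ _)
    rw [Finset.mem_insert, Finset.mem_singleton] at hx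
    rcases hx with rfl | rfl
    · exact ha (hC.1.1 hxC)
    · exact hb (hC.1.1 hxC)
  have z0 : ∀ W W' : Finset α, #(cov W E 0) = #(cov W' E 0) := by
    intro W W'
    unfold cov
    rw [Finset.powersetCard_zero, Finset.powersetCard_zero]
  have s2 : ∀ c, #(cov (insert b V) (insert ({a, b} : Finset α) E) (c + 1)) = #(cov V E c) := by
    intro c
    rw [h1 α (insert b V) (insert ({a, b} : Finset α) E) b c (Finset.mem_insert_self _ _), er2, fb,
      e0, Nat.add_zero]
  have s3 : ∀ c, #(cov (insert b V) E (c + 1)) = #(cov V E c) + #(cov V E (c + 1)) := by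
    intro c
    rw [h1 α (insert b V) E b c (Finset.mem_insert_self _ _), er2, fb']
  have s1 : ∀ c, #(cov (insert a (insert b V)) (insert ({a, b} : Finset α) E) (c + 1)) =
      #(cov (insert b V) E c) + #(cov V E c) := by
    intro c
    rw [h1 α (insert a (insert b V)) (insert ({a, b} : Finset α) E) a c
      (Finset.mem_insert_self _ _), er1, fa, s2]
  refine ⟨?_, ?_, fun c => ?_⟩
  · rw [Finset.card_eq_zero, Finset.eq_empty_iff_forall_notMem]
    intro C hC
    unfold cov at hC
    rw [Finset.mem_filter, Finset.powersetCard_zero, Finset.mem_singleton] at hC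
    obtain ⟨x, hx, hxC⟩ := hC.2 {a, b} (Finset.mem_insert_self _ _)
    rw [hC.1] at hxC
    exact absurd hxC (Finset.notMem_empty x)
  · have := s1 0
    rw [z0 (insert b V) V] at this
    rw [this]
    ring
  · rw [s1 (c + 1), s3 c]
    ring

end Pool.Agent.helper41.CL
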